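import Mathlib

/-!
# Ranks and minors
-/

set_option autoImplicit false

open scoped BigOperators

namespace Pool.Agent.HGF

/-- Independent columns in a matrix of rank at least `k`. -/
theorem exists_cols {K : Type} [Field K] {p b : ℕ} (B : Matrix (Fin p) (Fin b) K) {k : ℕ}
    (hB : k ≤ B.rank) : ∃ g : Fin k → Fin b, LinearIndependent K fun j => B.col (g j) := by
  rw [Matrix.rank_eq_finrank_span_cols] at hB
  obtain ⟨v, hv1, -, hv3⟩ := Submodule.exists_fun_fin_finrank_span_eq K (Set.range B.col)
  choose g hg using hv1
  refine ⟨fun j => g (Fin.castLE hB j), ?_⟩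
  have : (fun j => B.col (g (Fin.castLE hB j))) = v ∘ Fin.castLE hB := by
    funext j
    exact hg _
  rw [this]
  exact hv3.comp _ (Fin.castLE_injective hB)

/-- The rank is less than `k` iff all minors of size `k` vanish. -/
theorem rank_lt_iff {K : Type} [Field K] {m b : ℕ} (A : Matrix (Fin m) (Fin b) K) (k : ℕ) :
    A.rank < k ↔ ∀ (f : Fin k → Fin m) (g : Fin k → Fin b), (A.submatrix f g).det = 0 := by
  constructor
  · intro h f g
    by_contra hd
    have h1 : (A.submatrix f g).rank = k := by
      rw [Matrix.rank_of_isUnit _ ((Matrix.isUnit_iff_isUnit_det _).2 (isUnit_iff_ne_zero.2 hd)),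
        Fintype.card_fin]
    have h2 := A.rank_submatrix_le f g
    omega
  · intro h
    by_contra hk
    push Not at hk
    obtain ⟨g, hg⟩ := exists_cols A hk
    have h1 : k ≤ (A.submatrix id g).transpose.rank := by
      rw [Matrix.rank_transpose, Matrix.rank_eq_finrank_span_cols]
      have : (A.submatrix id g).col = fun j => A.col (g j) := rfl
      rw [this, finrank_span_eq_card hg, Fintype.card_fin]
    obtain ⟨f, hf⟩ := exists_cols _ h1
    have h2 : IsUnit (A.submatrix f g) := by
      rw [← Matrix.linearIndependent_rows_iff_isUnit]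
      exact hf
    exact (isUnit_iff_ne_zero.1 ((Matrix.isUnit_iff_isUnit_det _).1 h2)) (h f g)

end Pool.Agent.HGF
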