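import Pool.Agent.HGM.Count
import Pool.Agent.HGF.Minor

/-!
# Points of the hypersurfaces `∑ T_ijk x_i y_j z_k = 0` in a product of three projective spaces
-/

set_option autoImplicit false

open scoped BigOperators LinearAlgebra.Projectivization

namespace Pool.Agent.HGF

open Pool.Agent.HGC Pool.Agent.HGM

/-- The number of points over `K` of the hypersurface `∑ T_ijk x_i y_j z_k = 0` in the product of three
projective spaces. -/
noncomputable def triCount {a b c : ℕ} (T : Fin a → Fin b → Fin c → ℤ) (K : Type) [Field K] : ℕ :=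
  Nat.card {v : ℙ K (Fin a → K) × ℙ K (Fin b → K) × ℙ K (Fin c → K) //
    ∑ i, ∑ j, ∑ k, (T i j k : K) * v.1.rep i * v.2.1.rep j * v.2.2.rep k = 0}

section

variable {K : Type} [Field K] [Finite K]

/-- Points of a hyperplane, or of the whole space, in terms of a linear form. -/
theorem card_proj_form (M : ℕ) (φ : (Fin (M + 1) → K) →ₗ[K] K) [Decidable (φ = 0)] :
    Nat.card {z : ℙ K (Fin (M + 1) → K) // φ z.rep = 0} =
      qn (Nat.card K) M + (Nat.card K) ^ M * (if φ = 0 then 1 else 0) := by
  classical
  have : Fintype K := Fintype.ofFinite K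
  have hcard : (Nat.card (Fin (M + 1) → K) : ℤ) = (Nat.card K : ℤ) ^ (M + 1) := by
    rw [Nat.card_fun, Nat.card_fin]
    push_cast
    rfl
  have hq : (Nat.card K : ℤ) ≠ 0 := by
    have : 0 < Nat.card K := Nat.card_pos
    exact_mod_cast this.ne'
  have hq1 : (1 : ℤ) < Nat.card K := by
    have : 1 < Nat.card K := Finite.one_lt_card
    exact_mod_cast this
  have h1 := card_cone (K := K) (V := Fin (M + 1) → K) (fun z => φ z = 0) (fun u v => by
    rw [map_smul, smul_eq_mul, mul_eq_zero]
    exact ⟨fun h => h.resolve_left u.ne_zero, Or.inr⟩)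
  have h2 := card_ker_nonzero K φ
  have h3 := card_ker_form (V := Fin (M + 1) → K) φ
  rw [← h2, hcard, h1] at h3
  have g : (Nat.card K : ℤ) ^ M - 1 = ((Nat.card K : ℤ) - 1) * (qn (Nat.card K) M : ℕ) := by
    have h2 := mul_geom_sum (Nat.card K : ℤ) M
    rw [← h2]
    congr 1
    unfold qn
    push_cast
    rfl
  have h4 : (Nat.card {z : ℙ K (Fin (M + 1) → K) // φ z.rep = 0} : ℤ) =
      (qn (Nat.card K) M : ℕ) + (Nat.card K : ℤ) ^ M * (if φ = 0 then 1 else 0) := by
    apply mul_left_cancel₀ (show ((Nat.card K : ℤ) - 1) ≠ 0 by linarith)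
    apply mul_left_cancel₀ hq
    by_cases h : φ = 0
    · rw [if_pos h] at h3 ⊢
      linear_combination h3 + (Nat.card K : ℤ) * g
    · rw [if_neg h] at h3 ⊢
      linear_combination h3 + (Nat.card K : ℤ) * g
  split_ifs at h4 ⊢
  · exact_mod_cast h4
  · exact_mod_cast h4

/-- The number of points of projective space. -/
theorem card_proj (n : ℕ) : Nat.card (ℙ K (Fin n → K)) = qn (Nat.card K) n := by
  have hq1 : (1 : ℤ) < Nat.card K := by
    have : 1 < Nat.card K := Finite.one_lt_card
    exact_mod_cast this
  have h1 := card_cone (K := K) (V := Fin n → K) (fun _ => True) (fun _ _ => Iff.rfl)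
  have h2 := card_nonzero K (Fin n)
  have e1 : Nat.card {x : {x : Fin n → K // x ≠ 0} // True} = Nat.card {x : Fin n → K // x ≠ 0} :=
    Nat.card_congr (Equiv.subtypeUnivEquiv fun _ => trivial)
  have e2 : Nat.card {v : ℙ K (Fin n → K) // True} = Nat.card (ℙ K (Fin n → K)) :=
    Nat.card_congr (Equiv.subtypeUnivEquiv fun _ => trivial)
  rw [e1, e2, h2, Fintype.card_fin] at h1
  have g : (Nat.card K : ℤ) ^ n - 1 = ((Nat.card K : ℤ) - 1) * (qn (Nat.card K) n : ℕ) := by
    have h2 := mul_geom_sum (Nat.card K : ℤ) n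
    rw [← h2]
    congr 1
    unfold qn
    push_cast
    rfl
  rw [g] at h1
  have h3 := mul_left_cancel₀ (show ((Nat.card K : ℤ) - 1) ≠ 0 by linarith) h1
  exact_mod_cast h3.symm

/-- Points of the projective space of the kernel of a matrix. -/
theorem card_proj_ker {c b : ℕ} (A : Matrix (Fin c) (Fin b) K) :
    Nat.card {y : ℙ K (Fin b → K) // A.mulVec y.rep = 0} =
      ∑ r : Fin b, (Nat.card K) ^ (r : ℕ) * (if A.rank < b - r then 1 else 0) := by
  classical
  have hq1 : (1 : ℤ) < Nat.card K := by
    have : 1 < Nat.card K := Finite.one_lt_card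
    exact_mod_cast this
  have h1 := card_cone (K := K) (V := Fin b → K) (fun y => A.mulVec y = 0) (fun u v => by
    rw [Matrix.mulVec_smul, smul_eq_zero]
    exact ⟨fun h => h.resolve_left u.ne_zero, Or.inr⟩)
  have h2 : (Nat.card {x : {x : Fin b → K // x ≠ 0} // A.mulVec x.1 = 0} : ℤ) + 1 =
      (Nat.card K : ℤ) ^ (b - A.rank) := by
    have h3 : Nat.card {x : {x : Fin b → K // x ≠ 0} // A.mulVec x.1 = 0} + 1 =
        Nat.card (LinearMap.ker A.mulVecLin) := by
      rw [← Finite.card_option]
      refine Nat.card_congr ?_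
      exact
        { toFun := fun o => match o with
            | none => ⟨0, by simp⟩
            | some x => ⟨x.1.1, x.2⟩
          invFun := fun x => if h : x.1 = 0 then none else some ⟨⟨x.1, h⟩, x.2⟩
          left_inv := fun o => by
            rcases o with _ | ⟨⟨x, hx⟩, hx'⟩
            · simp
            · simp [hx]
          right_inv := fun x => by
            by_cases h : x.1 = 0
            · simp only [h, dite_true]
              exact Subtype.ext h.symm
            · simp [h] }
    have h4 : Nat.card (LinearMap.ker A.mulVecLin) = (Nat.card K) ^ (b - A.rank) := by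
      have : Fintype K := Fintype.ofFinite K
      have : Fintype (LinearMap.ker A.mulVecLin) := Fintype.ofFinite _
      rw [Nat.card_eq_fintype_card, Nat.card_eq_fintype_card,
        Module.card_eq_pow_finrank (K := K) (V := LinearMap.ker A.mulVecLin)]
      congr 1
      have h5 := LinearMap.finrank_range_add_finrank_ker A.mulVecLin
      rw [Module.finrank_fin_fun] at h5
      have h6 : A.rank = Module.finrank K (LinearMap.range A.mulVecLin) := rfl
      omega
    rw [h4] at h3
    exact_mod_cast h3
  have hrank : A.rank ≤ b := by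
    have := A.rank_le_width
    simpa using this
  have h3 : (Nat.card {y : ℙ K (Fin b → K) // A.mulVec y.rep = 0} : ℤ) =
      (qn (Nat.card K) (b - A.rank) : ℕ) := by
    apply mul_left_cancel₀ (show ((Nat.card K : ℤ) - 1) ≠ 0 by linarith)
    have g : (Nat.card K : ℤ) ^ (b - A.rank) - 1 =
        ((Nat.card K : ℤ) - 1) * (qn (Nat.card K) (b - A.rank) : ℕ) := by
      have h2 := mul_geom_sum (Nat.card K : ℤ) (b - A.rank)
      rw [← h2]
      congr 1
      unfold qn
      push_cast
      rfl
    linear_combination h1.symm + h2 + g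
  have h4 : Nat.card {y : ℙ K (Fin b → K) // A.mulVec y.rep = 0} =
      qn (Nat.card K) (b - A.rank) := by exact_mod_cast h3
  rw [h4]
  unfold qn
  rw [Fin.sum_univ_eq_sum_range (fun r => (Nat.card K) ^ r * (if A.rank < b - r then 1 else 0)) b]
  have e : ∑ r ∈ Finset.range b, (Nat.card K) ^ r * (if A.rank < b - r then 1 else 0) =
      ∑ r ∈ Finset.range (b - A.rank), (Nat.card K) ^ r * (if A.rank < b - r then 1 else 0) := by
    refine (Finset.sum_subset (fun r hr => ?_) (fun r _ hr => ?_)).symm
    · have := Finset.mem_range.1 hr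
      exact Finset.mem_range.2 (by omega)
    · rw [if_neg (fun h => hr (Finset.mem_range.2 (by omega))), mul_zero]
  rw [e]
  refine Finset.sum_congr rfl fun r hr => ?_
  rw [if_pos (by have := Finset.mem_range.1 hr; omega), mul_one]

end

end Pool.Agent.HGF
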