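import Pool.Agent.HGF.Count

/-!
# Degeneracy loci
-/

set_option autoImplicit false

open scoped BigOperators LinearAlgebra.Projectivization

namespace Pool.Agent.HGF

open Pool.Agent.HGC Pool.Agent.HGM

/-- A closed subscheme of projective space with `n` homogeneous coordinates over `ℤ`: finitely many
homogeneous polynomials of positive degree. -/
structure PSch (n : ℕ) where
  /-- the number of equations -/
  m : ℕ
  /-- the equations -/
  P : Fin m → MvPolynomial (Fin n) ℤ
  /-- they are homogeneous of positive degree -/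
  hom : ∀ i, ∃ d, 1 ≤ d ∧ (P i).IsHomogeneous d

/-- A finite family of forms as a closed subscheme. -/
theorem exists_psch {n : ℕ} {κ : Type} [Finite κ] (Q : κ → MvPolynomial (Fin n) ℤ)
    (hQ : ∀ k, ∃ d, 1 ≤ d ∧ (Q k).IsHomogeneous d) :
    ∃ X : PSch n, ∀ (K : Type) [Field K] (x : Fin n → K),
      (∀ i, MvPolynomial.aeval x (X.P i) = 0) ↔ ∀ k, MvPolynomial.aeval x (Q k) = 0 := by
  have : Fintype κ := Fintype.ofFinite κ
  refine ⟨⟨Fintype.card κ, fun i => Q ((Fintype.equivFin κ).symm i), fun i => hQ _⟩, fun K _ x => ?_⟩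
  exact ⟨fun h k => by simpa using h (Fintype.equivFin κ k), fun h i => h _⟩

variable {n b c : ℕ} (T : Fin n → Fin b → Fin c → ℤ)

/-- The matrix of linear forms. -/
noncomputable def pmat : Matrix (Fin c) (Fin b) (MvPolynomial (Fin n) ℤ) := fun k j =>
  ∑ i, MvPolynomial.C (T i j k) * MvPolynomial.X i

/-- Its value. -/
def vmat (K : Type) [Field K] (x : Fin n → K) : Matrix (Fin c) (Fin b) K := fun k j =>
  ∑ i, (T i j k : K) * x i

theorem pmat_one (k : Fin c) (j : Fin b) : (pmat T k j).IsHomogeneous 1 := by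
  unfold pmat
  refine MvPolynomial.IsHomogeneous.sum _ _ 1 fun i _ => ?_
  have := (MvPolynomial.isHomogeneous_C (Fin n) (T i j k)).mul (MvPolynomial.isHomogeneous_X ℤ i)
  simpa using this

theorem pmat_hom (s : ℕ) (f : Fin s → Fin c) (g : Fin s → Fin b) :
    ((pmat T).submatrix f g).det.IsHomogeneous s := by
  rw [Matrix.det_apply']
  refine MvPolynomial.IsHomogeneous.sum _ _ _ fun σ _ => ?_
  have h1 : (∏ i, (pmat T).submatrix f g (σ i) i).IsHomogeneous (∑ _i : Fin s, 1) := by
    exact MvPolynomial.IsHomogeneous.prod _ _ _ fun i _ => pmat_one T _ _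
  have h2 : (((Equiv.Perm.sign σ : ℤˣ) : ℤ) : MvPolynomial (Fin n) ℤ) =
      MvPolynomial.C ((Equiv.Perm.sign σ : ℤˣ) : ℤ) := by simp
  rw [h2]
  have h3 := (MvPolynomial.isHomogeneous_C (Fin n) (((Equiv.Perm.sign σ : ℤˣ) : ℤ))).mul h1
  simpa using h3

theorem pmat_aeval (K : Type) [Field K] (x : Fin n → K) (s : ℕ) (f : Fin s → Fin c)
    (g : Fin s → Fin b) :
    MvPolynomial.aeval x ((pmat T).submatrix f g).det = ((vmat T K x).submatrix f g).det := by
  rw [AlgHom.map_det]
  congr 1
  ext i j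
  simp [pmat, vmat, map_sum]

/-- The degeneracy loci. -/
theorem exists_loci : ∃ D : Fin b → PSch n, ∀ (K : Type) [Field K] (x : Fin n → K) (r : Fin b),
    (∀ i, MvPolynomial.aeval x ((D r).P i) = 0) ↔ (vmat T K x).rank < b - r := by
  have h : ∀ r : Fin b, ∃ X : PSch n, ∀ (K : Type) [Field K] (x : Fin n → K),
      (∀ i, MvPolynomial.aeval x (X.P i) = 0) ↔ (vmat T K x).rank < b - r := by
    intro r
    obtain ⟨X, hX⟩ := exists_psch (κ := (Fin (b - r) → Fin c) × (Fin (b - r) → Fin b))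
      (fun fg => ((pmat T).submatrix fg.1 fg.2).det)
      (fun fg => ⟨b - r, by omega, pmat_hom T _ fg.1 fg.2⟩)
    refine ⟨X, fun K _ x => ?_⟩
    rw [hX K x, rank_lt_iff]
    simp only [pmat_aeval, Prod.forall]
  choose D hD using h
  exact ⟨D, fun K _ x r => hD r K x⟩

end Pool.Agent.HGF
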