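import Pool.Agent.HGF.Main
import Pool.Agent.HGC.Cont

/-!
# L-functions: closed subschemes of projective space and forms of multidegree (1,1,1)

For every `n`: (1) every closed subscheme `X` of projective space with `n` homogeneous coordinates over
`ℤ` has a hypersurface `V_T : ∑ T_ijk x_i y_j z_k = 0` in a product of three projective spaces, with the
same `n` variables `x_i`, coefficients `0` and `1` and at most three terms for every `z_k`, such that
`#V_T(F_q) = [n][b][M] + q^M #X(F_q)`, and the L-function of weight `i` of `X` continues (is entire) iff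
that of weight `i + 2 M` of `V_T` does, powers of the Riemann zeta function being taken out; (2) every
`V_T` with `n` variables `x_i` and integers `T_ijk` has closed subschemes `D_0, ..., D_(b-1)` of the same
projective space with `#V_T(F_q) = [n][b][M] + q^M ∑_r q^r #D_r(F_q)`, and the L-function of weight `i + 2 M` of
`V_T` is, up to powers of the Riemann zeta function, the product of the shifted L-functions of weight `i - 2 r`
of the `D_r`; it continues (is entire) if they do.
-/

set_option autoImplicit false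

namespace Pool.Agent.HGF.DimFormat

open Pool.Agent.HGC Pool.Agent.HGM Pool.Agent.HGF

theorem result (n : ℕ) :
    (∀ X : PSch n, ∃ (b M : ℕ) (T : Fin n → Fin b → Fin (M + 1) → ℤ),
      (∀ i j k, T i j k = 0 ∨ T i j k = 1) ∧
      (∀ k, {e : Fin n × Fin b | T e.1 e.2 k ≠ 0}.ncard ≤ 3) ∧
      (∀ (K : Type) [Field K] [Finite K], triCount T K =
        qn (Nat.card K) n * qn (Nat.card K) b * qn (Nat.card K) M +
          Nat.card K ^ M * projCount X.P K) ∧
      ∀ μ ν : Nat.Primes → ℂ →₀ ℤ, IsSpectrum (countPF (projCount X.P)) μ →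
        IsSpectrum (countPF (triCount T)) ν → ∀ (S : Set Nat.Primes) (φ : PF) (i c : ℤ),
          (Continues (lfun S φ μ i c) ↔
            Continues (lfun S (shift M φ) ν (i + 2 * M) (c + kap n b M i))) ∧
          (Entire (lfun S φ μ i c) ↔
            Entire (lfun S (shift M φ) ν (i + 2 * M) (c + kap n b M i)))) ∧
    (∀ (b M : ℕ) (T : Fin n → Fin b → Fin (M + 1) → ℤ), ∃ D : Fin b → PSch n,
      (∀ (K : Type) [Field K] [Finite K], triCount T K =
        qn (Nat.card K) n * qn (Nat.card K) b * qn (Nat.card K) M +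
          Nat.card K ^ M * ∑ r : Fin b, Nat.card K ^ (r : ℕ) * projCount (D r).P K) ∧
      ∀ (μ : Fin b → Nat.Primes → ℂ →₀ ℤ) (ν : Nat.Primes → ℂ →₀ ℤ),
        (∀ r, IsSpectrum (countPF (projCount (D r).P)) (μ r)) → IsSpectrum (countPF (triCount T)) ν →
        ∀ (S : Set Nat.Primes) (φ : Fin b → PF) (i : ℤ) (c : Fin b → ℤ),
          (lfun S (shift M fun p s => ∑ r : Fin b, shift (r : ℕ) (φ r) p s) ν (i + 2 * M)
            (∑ r, c r + kap n b M i) = shift M fun p s =>
              ∑ r : Fin b, shift (r : ℕ) (lfun S (φ r) (μ r) (i - 2 * (r : ℕ)) (c r)) p s) ∧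
          ((∀ r, Continues (lfun S (φ r) (μ r) (i - 2 * (r : ℕ)) (c r))) →
            Continues (lfun S (shift M fun p s => ∑ r : Fin b, shift (r : ℕ) (φ r) p s) ν (i + 2 * M)
              (∑ r, c r + kap n b M i))) ∧
          ((∀ r, Entire (lfun S (φ r) (μ r) (i - 2 * (r : ℕ)) (c r))) →
            Entire (lfun S (shift M fun p s => ∑ r : Fin b, shift (r : ℕ) (φ r) p s) ν (i + 2 * M)
              (∑ r, c r + kap n b M i)))) := by
  constructor
  · intro X
    obtain ⟨b, M, T, h1, h2, h3, h4⟩ := forms_of_scheme n X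
    refine ⟨b, M, T, h1, h2, h3, fun μ ν hμ hν S φ i c => ?_⟩
    rw [h4 μ ν hμ hν S φ i c, continues_shift_iff, entire_shift_iff]
    exact ⟨Iff.rfl, Iff.rfl⟩
  · intro b M T
    obtain ⟨D, h1, h2⟩ := schemes_of_form n b M T
    refine ⟨D, h1, fun μ ν hμ hν S φ i c => ?_⟩
    have h3 := h2 μ ν hμ hν S φ i c
    refine ⟨h3, fun h => ?_, fun h => ?_⟩
    · rw [h3, continues_shift_iff]
      exact continues_sum' _ _ fun r _ => (continues_shift_iff _ _).2 (h r)
    · rw [h3, entire_shift_iff]
      exact entire_sum _ _ fun r _ => (entire_shift_iff _ _).2 (h r)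

end Pool.Agent.HGF.DimFormat
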