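import Pool.Agent.HGF.Tri
import Pool.Agent.HGM.Exact
import Pool.Agent.HGC.Cont

/-!
# Closed subschemes of projective space and forms with the same number of variables
-/

set_option autoImplicit false

open scoped BigOperators LinearAlgebra.Projectivization

namespace Pool.Agent.HGF

open Pool.Agent.HGC Pool.Agent.HGM

/-- The tensor of a hypergraph. -/
theorem exists_ten (h : HG) (n M : ℕ) (ha : h.a = n) (hc : h.c = M + 1) (hz : ZDeg 3 h.edges) :
    ∃ T : Fin n → Fin h.b → Fin (M + 1) → ℤ, (∀ i j k, T i j k = 0 ∨ T i j k = 1) ∧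
      (∀ k, {e : Fin n × Fin h.b | T e.1 e.2 k ≠ 0}.ncard ≤ 3) ∧
      ∀ (K : Type) [Field K], triCount T K = multiCount h.edges K := by
  classical
  obtain ⟨a, b, c, E⟩ := h
  simp only at ha hc hz ⊢
  subst ha hc
  refine ⟨fun i j k => if (i, j, k) ∈ E then 1 else 0, fun i j k => ?_, fun k => ?_, fun K _ => ?_⟩
  · by_cases h : (i, j, k) ∈ E
    · exact Or.inr (if_pos h)
    · exact Or.inl (if_neg h)
  · refine le_trans (le_of_eq ?_) (hz k)
    refine Set.ncard_congr (fun e _ => (e.1, e.2, k)) (fun e he => ?_) (fun e e' _ _ h => ?_)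
      (fun e he => ?_)
    · simp only [Set.mem_setOf_eq, ne_eq, ite_eq_right_iff, one_ne_zero, imp_false, not_not] at he
      exact ⟨he, rfl⟩
    · simp only [Prod.mk.injEq, and_true] at h
      exact Prod.ext h.1 h.2
    · obtain ⟨i, j, k'⟩ := e
      obtain ⟨h1, h2⟩ := he
      simp only at h2
      subst h2
      exact ⟨(i, j), by simpa using h1, rfl⟩
  · unfold triCount multiCount
    refine Nat.card_congr (Equiv.subtypeEquivRight fun v => ?_)
    have e : ∑ i, ∑ j, ∑ k, (((if (i, j, k) ∈ E then 1 else 0 : ℤ)) : K) * v.1.rep i * v.2.1.rep j *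
        v.2.2.rep k = ∑ e ∈ E, v.1.rep e.1 * v.2.1.rep e.2.1 * v.2.2.rep e.2.2 := by
      have h1 : ∑ e ∈ E, v.1.rep e.1 * v.2.1.rep e.2.1 * v.2.2.rep e.2.2 =
          ∑ e, if e ∈ E then v.1.rep e.1 * v.2.1.rep e.2.1 * v.2.2.rep e.2.2 else 0 := by
        rw [Finset.sum_ite_mem, Finset.univ_inter]
      rw [h1, Fintype.sum_prod_type]
      refine Finset.sum_congr rfl fun i _ => ?_
      rw [Fintype.sum_prod_type]
      refine Finset.sum_congr rfl fun j _ => Finset.sum_congr rfl fun k _ => ?_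
      by_cases h : (i, j, k) ∈ E
      · simp [h]
      · simp [h]
    rw [e]

/-- From schemes to forms. -/
theorem forms_of_scheme (n : ℕ) (X : PSch n) :
    ∃ (b M : ℕ) (T : Fin n → Fin b → Fin (M + 1) → ℤ), (∀ i j k, T i j k = 0 ∨ T i j k = 1) ∧
      (∀ k, {e : Fin n × Fin b | T e.1 e.2 k ≠ 0}.ncard ≤ 3) ∧
      (∀ (K : Type) [Field K] [Finite K], triCount T K =
        qn (Nat.card K) n * qn (Nat.card K) b * qn (Nat.card K) M +
          Nat.card K ^ M * projCount X.P K) ∧
      ∀ μ ν : Nat.Primes → ℂ →₀ ℤ, IsSpectrum (countPF (projCount X.P)) μ →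
        IsSpectrum (countPF (triCount T)) ν → ∀ (S : Set Nat.Primes) (φ : PF) (i c : ℤ),
          lfun S (shift M φ) ν (i + 2 * M) (c + kap n b M i) = shift M (lfun S φ μ i c) := by
  obtain ⟨h, M, h1, h2, h3, h4⟩ := exact_count X.P X.hom
  obtain ⟨T, t1, t2, t3⟩ := exists_ten h n M h1 h2 h3
  have h5 : ∀ (K : Type) [Field K] [Finite K], triCount T K =
      qn (Nat.card K) n * qn (Nat.card K) h.b * qn (Nat.card K) M +
        Nat.card K ^ M * projCount X.P K := fun K _ _ => by rw [t3, h4, h1]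
  refine ⟨h.b, M, T, t1, t2, h5, fun μ ν hμ hν S φ i c => ?_⟩
  funext p r
  refine lfun_shift n h.b M _ _ (fun p r hr => ?_) μ ν hμ hν S φ i c p r
  haveI : Fact (p : ℕ).Prime := ⟨p.2⟩
  have hcard : Nat.card (GaloisField (p : ℕ) r) = (p : ℕ) ^ r := GaloisField.card _ _ (by omega)
  have h6 := h5 (GaloisField (p : ℕ) r)
  rw [hcard] at h6
  rw [shift, countPF_eq, countPF_eq, h6]
  push_cast
  ring

/-- From forms to schemes. -/
theorem schemes_of_form (n b M : ℕ) (T : Fin n → Fin b → Fin (M + 1) → ℤ) :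
    ∃ D : Fin b → PSch n,
      (∀ (K : Type) [Field K] [Finite K], triCount T K =
        qn (Nat.card K) n * qn (Nat.card K) b * qn (Nat.card K) M +
          Nat.card K ^ M * ∑ r : Fin b, Nat.card K ^ (r : ℕ) * projCount (D r).P K) ∧
      ∀ (μ : Fin b → Nat.Primes → ℂ →₀ ℤ) (ν : Nat.Primes → ℂ →₀ ℤ),
        (∀ r, IsSpectrum (countPF (projCount (D r).P)) (μ r)) → IsSpectrum (countPF (triCount T)) ν →
        ∀ (S : Set Nat.Primes) (φ : Fin b → PF) (i : ℤ) (c : Fin b → ℤ),
          lfun S (shift M fun p s => ∑ r : Fin b, shift (r : ℕ) (φ r) p s) ν (i + 2 * M)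
            (∑ r, c r + kap n b M i) = shift M fun p s =>
              ∑ r : Fin b, shift (r : ℕ) (lfun S (φ r) (μ r) (i - 2 * (r : ℕ)) (c r)) p s := by
  classical
  obtain ⟨D, hD⟩ := exists_loci T
  have h5 := fun (K : Type) [Field K] [Finite K] => triCount_eq T K D (hD K)
  refine ⟨D, h5, fun μ ν hμ hν S φ i c => ?_⟩
  -- the spectrum of the sum
  set f : PF := fun p s => ∑ r : Fin b, shift (r : ℕ) (countPF (projCount (D r).P)) p s with hf
  set μ' : Nat.Primes → ℂ →₀ ℤ := fun p =>
    ∑ r : Fin b, LocWAux.scale (((p : ℕ) : ℂ) ^ (r : ℕ)) (μ r p) with hμ'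
  have hsp : IsSpectrum f μ' := by
    intro p s hs
    have h1 : (μ' p).sum (fun α m => (m : ℂ) * α ^ s) = LocWAux.ev (μ' p) s := rfl
    rw [h1, hμ', ev_sum, hf]
    refine Finset.sum_congr rfl fun r _ => ?_
    have h3 : LocWAux.ev (μ r p) s = countPF (projCount (D r).P) p s := (hμ r p s hs).symm
    rw [LocWAux.ev_scale, h3, shift, ← pow_mul, ← pow_mul, mul_comm (r : ℕ) s]
  have h6 : lfun S (shift M fun p s => ∑ r : Fin b, shift (r : ℕ) (φ r) p s) ν (i + 2 * M)
      (∑ r, c r + kap n b M i) =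
      shift M (lfun S (fun p s => ∑ r : Fin b, shift (r : ℕ) (φ r) p s) μ' i (∑ r, c r)) := by
    funext p r
    refine lfun_shift n b M f _ (fun p r hr => ?_) μ' ν hsp hν S _ i _ p r
    haveI : Fact (p : ℕ).Prime := ⟨p.2⟩
    have hcard : Nat.card (GaloisField (p : ℕ) r) = (p : ℕ) ^ r := GaloisField.card _ _ (by omega)
    have h6 := h5 (GaloisField (p : ℕ) r)
    rw [hcard] at h6
    rw [shift, hf, countPF_eq, h6]
    push_cast
    congr 1
  rw [h6, lfun_sum (fun r => countPF (projCount (D r).P)) μ μ' hμ hsp S φ i c]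

theorem continues_zero' : Continues fun _ _ => 0 :=
  ⟨0, fun _ => 1, fun _ => (analyticAt_const).meromorphicAt, fun s _ => by
    have h : term (fun _ _ => 0) s = fun _ => 0 := by
      funext x
      simp [term]
    rw [h]
    exact ⟨summable_zero, by simp⟩⟩

theorem continues_sum' {κ : Type} (s : Finset κ) (f : κ → PF) (hf : ∀ i ∈ s, Continues (f i)) :
    Continues fun p r => ∑ i ∈ s, f i p r := by
  classical
  induction s using Finset.induction_on with
  | empty => exact continues_congr (fun p r _ => by simp) continues_zero'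
  | insert a s ha ih =>
    exact continues_congr (fun p r _ => by rw [Finset.sum_insert ha])
      (continues_add (hf a (Finset.mem_insert_self _ _)) (ih fun i hi => hf i (Finset.mem_insert_of_mem hi)))

end Pool.Agent.HGF
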