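import Pool.Agent.HGF.Deg
import Pool.Agent.HGM.Spec

/-!
# The number of points in terms of the degeneracy loci
-/

set_option autoImplicit false

open scoped BigOperators LinearAlgebra.Projectivization

namespace Pool.Agent.HGF

open Pool.Agent.HGC Pool.Agent.HGM

section

variable {n b M : ℕ} (T : Fin n → Fin b → Fin (M + 1) → ℤ) (K : Type) [Field K]

/-- The linear form in `z`. -/
def zlin (x : Fin n → K) (y : Fin b → K) : (Fin (M + 1) → K) →ₗ[K] K where
  toFun z := ∑ i, ∑ j, ∑ k, (T i j k : K) * x i * y j * z k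
  map_add' z z' := by
    simp only [Pi.add_apply, mul_add, Finset.sum_add_distrib]
  map_smul' s z := by
    simp only [Pi.smul_apply, smul_eq_mul, RingHom.id_apply, Finset.mul_sum]
    refine Finset.sum_congr rfl fun i _ => Finset.sum_congr rfl fun j _ =>
      Finset.sum_congr rfl fun k _ => by ring

theorem zlin_apply (x : Fin n → K) (y : Fin b → K) (z : Fin (M + 1) → K) :
    zlin T K x y z = ∑ i, ∑ j, ∑ k, (T i j k : K) * x i * y j * z k := rfl

theorem zlin_eq (x : Fin n → K) (y : Fin b → K) (z : Fin (M + 1) → K) :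
    zlin T K x y z = ∑ k, ((vmat T K x).mulVec y) k * z k := by
  rw [zlin_apply]
  simp only [Matrix.mulVec, dotProduct, vmat, Finset.sum_mul]
  rw [Finset.sum_comm_cycle]
  refine Finset.sum_congr rfl fun k _ => ?_
  rw [Finset.sum_comm]
  try exact Finset.sum_congr rfl fun j _ => Finset.sum_congr rfl fun i _ => by ring

theorem zlin_eq_zero_iff (x : Fin n → K) (y : Fin b → K) :
    zlin T K x y = 0 ↔ (vmat T K x).mulVec y = 0 := by
  classical
  constructor
  · intro h
    funext k
    have h1 := congrArg (fun φ : (Fin (M + 1) → K) →ₗ[K] K => φ (Pi.single k 1)) h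
    simp only [LinearMap.zero_apply] at h1
    rw [zlin_eq] at h1
    simpa [Pi.single_apply] using h1
  · intro h
    refine LinearMap.ext fun z => ?_
    rw [zlin_eq, h]
    simp

theorem triCount_eq [Finite K] (D : Fin b → PSch n)
    (hD : ∀ (x : Fin n → K) (r : Fin b),
      (∀ i, MvPolynomial.aeval x ((D r).P i) = 0) ↔ (vmat T K x).rank < b - r) :
    triCount T K = qn (Nat.card K) n * qn (Nat.card K) b * qn (Nat.card K) M +
      Nat.card K ^ M * ∑ r : Fin b, Nat.card K ^ (r : ℕ) * projCount (D r).P K := by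
  classical
  have : Fintype K := Fintype.ofFinite K
  have : Fintype (ℙ K (Fin n → K)) := Fintype.ofFinite _
  have : Fintype (ℙ K (Fin b → K)) := Fintype.ofFinite _
  have e1 : triCount T K = ∑ v : ℙ K (Fin n → K) × ℙ K (Fin b → K),
      Nat.card {z : ℙ K (Fin (M + 1) → K) // zlin T K v.1.rep v.2.rep z.rep = 0} := by
    unfold triCount
    rw [← Nat.card_sigma]
    exact Nat.card_congr
      { toFun := fun v => ⟨(v.1.1, v.1.2.1), ⟨v.1.2.2, v.2⟩⟩
        invFun := fun v => ⟨(v.1.1, v.1.2, v.2.1), v.2.2⟩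
        left_inv := fun v => rfl
        right_inv := fun v => rfl }
  have e2 : ∀ x : ℙ K (Fin n → K), ∑ y : ℙ K (Fin b → K),
      (if (vmat T K x.rep).mulVec y.rep = 0 then 1 else 0) =
        ∑ r : Fin b, Nat.card K ^ (r : ℕ) * (if (vmat T K x.rep).rank < b - r then 1 else 0) := by
    intro x
    rw [← card_proj_ker, Nat.card_eq_fintype_card, Fintype.card_subtype, Finset.card_filter]
  have e3 : ∀ r : Fin b, projCount (D r).P K =
      ∑ x : ℙ K (Fin n → K), (if (vmat T K x.rep).rank < b - r then 1 else 0) := by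
    intro r
    unfold projCount
    rw [Nat.card_eq_fintype_card, Fintype.card_subtype, Finset.card_filter]
    refine Finset.sum_congr rfl fun x _ => ?_
    rw [if_congr (hD x.rep r) rfl rfl]
  rw [e1]
  simp only [card_proj_form, zlin_eq_zero_iff]
  rw [Finset.sum_add_distrib, Finset.sum_const, Finset.card_univ, Fintype.card_prod,
    ← Finset.mul_sum, Fintype.sum_prod_type]
  have c1 : Fintype.card (ℙ K (Fin n → K)) = qn (Nat.card K) n := by
    rw [← Nat.card_eq_fintype_card, card_proj]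
  have c2 : Fintype.card (ℙ K (Fin b → K)) = qn (Nat.card K) b := by
    rw [← Nat.card_eq_fintype_card, card_proj]
  rw [c1, c2, smul_eq_mul, Finset.sum_congr rfl fun x _ => e2 x, Finset.sum_comm]
  congr 2
  refine Finset.sum_congr rfl fun r _ => ?_
  rw [← Finset.mul_sum, e3 r]

end

/-! ### The functions `lfun` -/

open Pool.Agent.HGC.LocWAux

/-- The part of weight `i` of a sum of shifts. -/
theorem lfun_sum {b : ℕ} (f : Fin b → PF) (μ : Fin b → Nat.Primes → ℂ →₀ ℤ) (ν : Nat.Primes → ℂ →₀ ℤ)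
    (hμ : ∀ r, IsSpectrum (f r) (μ r)) (hν : IsSpectrum (fun p s => ∑ r : Fin b, shift (r : ℕ) (f r) p s) ν)
    (S : Set Nat.Primes) (φ : Fin b → PF) (i : ℤ) (c : Fin b → ℤ) :
    lfun S (fun p s => ∑ r : Fin b, shift (r : ℕ) (φ r) p s) ν i (∑ r, c r) =
      fun p s => ∑ r : Fin b, shift (r : ℕ) (lfun S (φ r) (μ r) (i - 2 * (r : ℕ)) (c r)) p s := by
  classical
  funext p s
  have h1 : wt (p : ℕ) i (ν p) = wt (p : ℕ) i (∑ r : Fin b, scale (((p : ℕ) : ℂ) ^ (r : ℕ)) (μ r p)) := by
    refine ev_wt_congr p.2 (fun s hs => ?_) i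
    have h2 : ev (ν p) s = ∑ r : Fin b, shift (r : ℕ) (f r) p s := (hν p s hs).symm
    rw [h2, ev_sum]
    refine Finset.sum_congr rfl fun r _ => ?_
    have h3 : ev (μ r p) s = f r p s := (hμ r p s hs).symm
    rw [ev_scale, h3, shift, ← pow_mul, ← pow_mul, mul_comm (r : ℕ) s]
  unfold lfun
  by_cases hS : p ∈ S
  · rw [if_pos hS]
    refine Finset.sum_congr rfl fun r _ => ?_
    simp only [shift, if_pos hS]
  · rw [if_neg hS, weightPart_eq, h1, wt_sum, ev_sum, Finset.mul_sum]
    push_cast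
    rw [Finset.sum_mul, ← Finset.sum_sub_distrib]
    refine Finset.sum_congr rfl fun r _ => ?_
    simp only [shift, if_neg hS]
    have hp0 : ((p : ℕ) : ℂ) ≠ 0 := by exact_mod_cast p.2.ne_zero
    have hsign : (i - 2 * ((r : ℕ) : ℤ)).negOnePow = i.negOnePow := by
      rw [sub_eq_add_neg, Int.negOnePow_add, Int.negOnePow_even (-(2 * ((r : ℕ) : ℤ)))
        (even_two_mul _).neg, mul_one]
    have hdiv : i / 2 = (i - 2 * ((r : ℕ) : ℤ)) / 2 + ((r : ℕ) : ℤ) := by omega
    rw [scale_pow_wt p.2, ev_scale, weightPart_eq, hsign]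
    have hz : (((p : ℕ) : ℂ) ^ (i / 2)) ^ s =
        (((p : ℕ) : ℂ) ^ s) ^ (r : ℕ) * (((p : ℕ) : ℂ) ^ ((i - 2 * ((r : ℕ) : ℤ)) / 2)) ^ s := by
      conv_lhs => rw [hdiv]
      rw [zpow_add₀ hp0, mul_pow, zpow_natCast, ← pow_mul, ← pow_mul, mul_comm (r : ℕ) s]
      ring
    rw [hz, ← pow_mul, ← pow_mul, mul_comm (r : ℕ) s]
    ring

theorem entire_zero : Entire fun _ _ => 0 :=
  ⟨0, fun _ => 1, differentiable_const 1, fun s _ => by
    have h : term (fun _ _ => 0) s = fun _ => 0 := by
      funext x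
      simp [term]
    rw [h]
    exact ⟨summable_zero, by simp⟩⟩

theorem entire_add {f g : PF} (hf : Entire f) (hg : Entire g) : Entire fun p r => f p r + g p r := by
  obtain ⟨σ, F, hF, h1⟩ := hf
  obtain ⟨τ, G, hG, h2⟩ := hg
  refine ⟨max σ τ, fun s => F s * G s, hF.mul hG, fun s hs => ?_⟩
  obtain ⟨a1, a2⟩ := h1 s ((le_max_left _ _).trans_lt hs)
  obtain ⟨b1, b2⟩ := h2 s ((le_max_right _ _).trans_lt hs)
  have h3 : term (fun p r => f p r + g p r) s = fun x => term f s x + term g s x := by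
    funext x
    exact term_add f g s x
  rw [h3]
  refine ⟨a1.add b1, ?_⟩
  beta_reduce
  rw [a2, b2, ← Complex.exp_add, a1.tsum_add b1]

theorem entire_sum {κ : Type} (s : Finset κ) (f : κ → PF) (hf : ∀ i ∈ s, Entire (f i)) :
    Entire fun p r => ∑ i ∈ s, f i p r := by
  classical
  induction s using Finset.induction_on with
  | empty => exact entire_congr (fun p r _ => by simp) entire_zero
  | insert a s ha ih =>
    exact entire_congr (fun p r _ => by rw [Finset.sum_insert ha])
      (entire_add (hf a (Finset.mem_insert_self _ _)) (ih fun i hi => hf i (Finset.mem_insert_of_mem hi)))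

end Pool.Agent.HGF
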